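import Pool.Agent.Q262.Cubic.Defs

/-!
# A connected cubic graph with `Γ⁻ > γ_s`
-/

set_option autoImplicit false

open Finset

namespace Pool.Agent.Results.MP_260dff_co.SixteenVertices

open Pool.Agent.Q262.Cubic

/-- The 24 edges. -/
def E : List (ℕ × ℕ) :=
  [(0, 1), (0, 3), (0, 5), (1, 4), (1, 9), (2, 8), (2, 11), (2, 12), (3, 8), (3, 13), (4, 12),
   (4, 15), (5, 11), (5, 14), (6, 9), (6, 10), (6, 12), (7, 8), (7, 11), (7, 15), (9, 10),
   (10, 13), (13, 14), (14, 15)]

/-- The graph. -/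
def G : SimpleGraph (Fin 16) := ofList 16 E

/-- A minimal minus dominating function of weight `9`. -/
def f : Fin 16 → ℤ := ![1, 1, 1, 1, 1, 1, 1, 1, 1, 1, 0, 0, -1, 1, -1, 0]

/-- A signed dominating function of weight `8`. -/
def g : Fin 16 → ℤ := ![-1, 1, -1, 1, 1, 1, 1, 1, 1, 1, -1, 1, 1, 1, 1, -1]

lemma f_dom : IsMinusDom G f := by
  refine ⟨by decide +kernel, ?_⟩
  intro v
  unfold G
  rw [closedSum_eq]
  revert v
  decide +kernel

lemma f_crit : ∀ v : Fin 16, 0 ≤ f v → ∃ u : Fin 16, (v = u ∨ (ofList 16 E).Adj u v) ∧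
    cs E f u = 1 := by decide +kernel

lemma f_min : IsMinimalMinusDom G f := by
  apply minimal_of_criterion f_dom
  intro v hv
  obtain ⟨u, h1, h2⟩ := f_crit v hv
  exact ⟨u, h1, by unfold G; rw [closedSum_eq]; exact h2⟩

lemma g_dom : IsSignedDom G g := by
  refine ⟨by decide +kernel, ?_⟩
  intro v
  unfold G
  rw [closedSum_eq]
  revert v
  decide +kernel

lemma f_weight : ∑ v, f v = 9 := by decide +kernel

lemma g_weight : ∑ v, g v = 8 := by decide +kernel

lemma conn_step : ∀ v : Fin 16, v ≠ 0 → ∃ u : Fin 16, (ofList 16 E).Adj v u ∧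
    (u = 0 ∨ ∃ w : Fin 16, (ofList 16 E).Adj u w ∧ (w = 0 ∨ ∃ x : Fin 16,
      (ofList 16 E).Adj w x ∧ (x = 0 ∨ ∃ y : Fin 16, (ofList 16 E).Adj x y ∧ (y = 0 ∨
        (ofList 16 E).Adj y 0)))) := by
  decide +kernel

lemma reach (v : Fin 16) : G.Reachable v 0 := by
  by_cases hv : v = 0
  · rw [hv]
  · obtain ⟨u, h1, h⟩ := conn_step v hv
    have r1 : G.Reachable v u := SimpleGraph.Adj.reachable h1
    rcases h with rfl | ⟨w, h2, h⟩
    · exact r1
    have r2 : G.Reachable u w := SimpleGraph.Adj.reachable h2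
    rcases h with rfl | ⟨x, h3, h⟩
    · exact r1.trans r2
    have r3 : G.Reachable w x := SimpleGraph.Adj.reachable h3
    rcases h with rfl | ⟨y, h4, h⟩
    · exact (r1.trans r2).trans r3
    have r4 : G.Reachable x y := SimpleGraph.Adj.reachable h4
    rcases h with rfl | h5
    · exact ((r1.trans r2).trans r3).trans r4
    exact (((r1.trans r2).trans r3).trans r4).trans (SimpleGraph.Adj.reachable h5)

lemma conn : G.Connected := by
  refine ⟨?_⟩
  intro x y
  exact (reach x).trans (reach y).symm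

theorem result : ∃ (V : Type) (_ : Fintype V) (G : SimpleGraph V),
    G.Connected ∧ IsCubic G ∧ signedDom G < upperMinus G := by
  refine ⟨Fin 16, inferInstance, G, conn, cubic_of_decide E (by decide +kernel), ?_⟩
  have h1 := le_upperMinus f_min
  have h2 := signedDom_le g_dom
  rw [f_weight] at h1
  rw [g_weight] at h2
  omega

end Pool.Agent.Results.MP_260dff_co.SixteenVertices
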